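import Pool.Agent.J4H41.AM.Defs

set_option autoImplicit false

/-! # Job RANK: every polar configuration has a rank function -/

namespace Pool.Agent.J4H70.AM

open Pool.Agent.J4H41.AM

/-- the relation `z ⊲ p` -/
def Pre {X : Type} (q : X → ℕ) (i o : X → ℤ) (z p : X) : Prop :=
  q z < 4 ∧ q p = (q z + 1) % 4 ∧ o z < i p

theorem pre_wf {X : Type} [Finite X] {q : X → ℕ} {i o : X → ℤ} (h : Polar q i o) :
    WellFounded (Pre q i o) := by
  by_contra hcon
  obtain ⟨p, hp⟩ : ∃ p, ¬ Acc (Pre q i o) p := by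
    by_contra h1
    push Not at h1
    exact hcon ⟨h1⟩
  have step : ∀ p, ¬ Acc (Pre q i o) p → ∃ z, Pre q i o z p ∧ ¬ Acc (Pre q i o) z := by
    intro p hp
    by_contra h1
    push Not at h1
    exact hp (Acc.intro p h1)
  have hlt : ∀ p, ¬ Acc (Pre q i o) p → q p < 4 := by
    intro p hp
    obtain ⟨z, ⟨h1, h2, h3⟩, -⟩ := step p hp
    omega
  obtain ⟨z1, ⟨a1, a2, -⟩, hz1⟩ := step p hp
  obtain ⟨z2, ⟨b1, b2, -⟩, hz2⟩ := step z1 hz1
  obtain ⟨z3, ⟨c1, c2, -⟩, hz3⟩ := step z2 hz2
  have meet : ∀ k, k < 4 → ∃ p, ¬ Acc (Pre q i o) p ∧ q p = k := by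
    intro k hk
    by_cases e0 : q p = k
    · exact ⟨p, hp, e0⟩
    by_cases e1 : q z1 = k
    · exact ⟨z1, hz1, e1⟩
    by_cases e2 : q z2 = k
    · exact ⟨z2, hz2, e2⟩
    by_cases e3 : q z3 = k
    · exact ⟨z3, hz3, e3⟩
    have := hlt p hp
    omega
  have mini : ∀ k, k < 4 → ∃ p, ¬ Acc (Pre q i o) p ∧ q p = k ∧
      ∀ p', ¬ Acc (Pre q i o) p' → q p' = k → o p ≤ o p' := by
    intro k hk
    obtain ⟨p, hp1, hp2⟩ := meet k hk
    have hfin : ({p | ¬ Acc (Pre q i o) p ∧ q p = k} : Set X).Finite := Set.toFinite _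
    obtain ⟨m, hm, hm'⟩ := Set.exists_min_image _ o hfin ⟨p, hp1, hp2⟩
    exact ⟨m, hm.1, hm.2, fun p' h1 h2 => hm' p' ⟨h1, h2⟩⟩
  obtain ⟨p0, n0, e0, m0⟩ := mini 0 (by norm_num)
  obtain ⟨p1, n1, e1, m1⟩ := mini 1 (by norm_num)
  obtain ⟨p2, n2, e2, m2⟩ := mini 2 (by norm_num)
  obtain ⟨p3, n3, e3, m3⟩ := mini 3 (by norm_num)
  have g1 : o p0 < i p1 := by
    obtain ⟨z, ⟨x1, x2, x3⟩, hz⟩ := step p1 n1
    have := m0 z hz (by omega)
    omega
  have g2 : o p1 < i p2 := by
    obtain ⟨z, ⟨x1, x2, x3⟩, hz⟩ := step p2 n2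
    have := m1 z hz (by omega)
    omega
  have g3 : o p2 < i p3 := by
    obtain ⟨z, ⟨x1, x2, x3⟩, hz⟩ := step p3 n3
    have := m2 z hz (by omega)
    omega
  have g0 : o p3 < i p0 := by
    obtain ⟨z, ⟨x1, x2, x3⟩, hz⟩ := step p0 n0
    have := m3 z hz (by omega)
    omega
  exact h.Z p0 p1 p2 p3 e0 e1 e2 e3 g1 g2 g3 g0

/-- existence of the natural-number rank -/
theorem exists_rk {X : Type} [Finite X] {q : X → ℕ} {i o : X → ℤ} (h : Polar q i o) :
    ∃ rk : X → ℕ, (∀ p, q p ≤ rk p) ∧ (∀ z p, Pre q i o z p → rk z + 1 ≤ rk p) ∧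
      (∀ p, rk p = q p ∨ ∃ z, Pre q i o z p ∧ rk p = rk z + 1) := by
  classical
  haveI := Fintype.ofFinite X
  have wf := pre_wf h
  let F : (p : X) → ((z : X) → Pre q i o z p → ℕ) → ℕ := fun p f =>
    (Finset.univ.sup fun z : X => if hz : Pre q i o z p then f z hz + 1 else 0) ⊔ q p
  let rk : X → ℕ := wf.fix F
  have hrk : ∀ p, rk p = (Finset.univ.sup fun z : X => if Pre q i o z p then rk z + 1 else 0) ⊔ q p := by
    intro p
    show wf.fix F p = _
    rw [wf.fix_eq]
    simp only [F, rk]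
    congr 1
  refine ⟨rk, ?_, ?_, ?_⟩
  · intro p
    rw [hrk p]
    exact le_sup_right
  · intro z p hz
    have h1 : (if Pre q i o z p then rk z + 1 else 0) ≤
        (Finset.univ.sup fun z : X => if Pre q i o z p then rk z + 1 else 0) :=
      Finset.le_sup (f := fun z : X => if Pre q i o z p then rk z + 1 else 0) (Finset.mem_univ z)
    rw [if_pos hz] at h1
    rw [hrk p]
    exact h1.trans le_sup_left
  · intro p
    by_cases h0 : (Finset.univ.sup fun z : X => if Pre q i o z p then rk z + 1 else 0) ≤ q p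
    · left
      rw [hrk p]
      exact sup_eq_right.2 h0
    · right
      push Not at h0
      have h1 : rk p = (Finset.univ.sup fun z : X => if Pre q i o z p then rk z + 1 else 0) := by
        rw [hrk p]
        exact sup_eq_left.2 h0.le
      have hne : (Finset.univ : Finset X).Nonempty := ⟨p, Finset.mem_univ p⟩
      obtain ⟨z, -, hz⟩ := Finset.exists_mem_eq_sup (Finset.univ : Finset X) hne
        (fun z : X => if Pre q i o z p then rk z + 1 else 0)
      by_cases hpz : Pre q i o z p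
      · refine ⟨z, hpz, ?_⟩
        rw [h1, hz, if_pos hpz]
      · rw [hz, if_neg hpz] at h0
        omega

theorem t_RANK : S_RANK := by
  intro X _ q i o h4 h hne
  obtain ⟨rk, k1, k2, k3⟩ := exists_rk h
  have wf := pre_wf h
  have hmod : ∀ p, q p < 4 → rk p % 4 = q p := by
    intro p
    induction p using wf.induction with
    | _ p ih =>
      intro hp
      rcases k3 p with h1 | ⟨z, hz, h1⟩
      · rw [h1]; omega
      · have h2 := ih z hz hz.1
        have h3 := hz.2.1
        omega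
  have hthird : ∀ p p', q p < 4 → q p = q p' → o p ≤ o p' → rk p ≤ rk p' := by
    intro p p' hp hpp ho
    rcases k3 p with h1 | ⟨z, hz, h1⟩
    · rw [h1, hpp]; exact k1 p'
    · have h2 : Pre q i o z p' := by
        refine ⟨hz.1, by rw [← hpp]; exact hz.2.1, ?_⟩
        by_contra h3
        push Not at h3
        have h4' : i p' < o z := lt_of_le_of_ne h3 (fun e => hne z p' hz.1 (by rw [← hpp]; exact hz.2.1) e.symm)
        have h5 := h.R z p' p hz.1 (by rw [← hpp]; exact hz.2.1) hz.2.1 h4' hz.2.2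
        omega
      rw [h1]
      exact k2 z p' h2
  refine ⟨fun p => if q p = 4 then -5 else (rk p : ℤ), ?_, ?_, ?_, ?_, ?_, ?_⟩
  · intro p hp
    simp [hp]
  · intro p hp
    have := hmod p hp
    have hp' : q p ≠ 4 := by omega
    simp only [if_neg hp']
    omega
  · intro p p' hp hpp ho
    have := hthird p p' hp hpp ho
    have hp1 : q p ≠ 4 := by omega
    have hp2 : q p' ≠ 4 := by omega
    simp only [if_neg hp1, if_neg hp2]
    exact_mod_cast this
  · intro p p' hp hpp hi
    have : rk p ≤ rk p' := by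
      rcases k3 p with h1 | ⟨z, hz, h1⟩
      · rw [h1, hpp]; exact k1 p'
      · rw [h1]
        exact k2 z p' ⟨hz.1, by rw [← hpp]; exact hz.2.1, hz.2.2.trans_le hi⟩
    have hp1 : q p ≠ 4 := by omega
    have hp2 : q p' ≠ 4 := by omega
    simp only [if_neg hp1, if_neg hp2]
    exact_mod_cast this
  · intro z p hz hp ho
    have := k2 z p ⟨hz, hp, ho⟩
    have hp1 : q z ≠ 4 := by omega
    have hp2 : q p ≠ 4 := by omega
    simp only [if_neg hp1, if_neg hp2]
    exact_mod_cast this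
  · intro z p hz hp ho
    have : rk p ≤ rk z + 1 := by
      rcases k3 p with h1 | ⟨z', hz', h1⟩
      · rw [h1]
        have := k1 z
        omega
      · have e : q z' = q z := by
          have := hz'.1
          have := hz'.2.1
          omega
        have := hthird z' z hz'.1 e (by have := hz'.2.2; omega)
        omega
    have hp1 : q z ≠ 4 := by omega
    have hp2 : q p ≠ 4 := by omega
    simp only [if_neg hp1, if_neg hp2]
    exact_mod_cast this

end Pool.Agent.J4H70.AM
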